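import Mathlib

/-!
# Random sequential and `T_c` upper semicontinuity are not equivalent (MP_4f3acd_an, Q1)

Let `Ω = ℕ`, `P {n} = 2^{-n-1}`, so that `L^0(F, 𝕂) = 𝕂^ℕ`, the topology `T_{ε,λ}` is the product
topology and `T_c` is the box topology. The map `F(x) = x + {0,1}^ℕ` is sigma-stable and random
sequentially upper semicontinuous, since `{0,1}^ℕ` is compact in the product topology. The box open
neighbourhood `U = ⋃_y {z : |z_i - y_i| < ε(y) for all i}` of `F(0)`, where `ε(y) = 2^{-m-2}` and `m` is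
the first index with `y_m = 1`, shows that `F` is not `T_c`-upper semicontinuous.
-/

set_option autoImplicit false
set_option linter.unusedSectionVars false

open Set Topology Filter MeasureTheory
open scoped ENNReal

namespace Pool.Agent.Results.MP_4f3acd_an.NotEquivalent

section defs

variable {𝕂 : Type} [RCLike 𝕂]
variable {Ω : Type} [MeasurableSpace Ω] {P : Measure Ω}

/-- `L^0(F, 𝕂)`, the set of the a.s. classes of measurable functions, is a commutative ring with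
Mathlib's (pointwise) addition and multiplication. -/
noncomputable instance instCommRing : CommRing (Ω →ₘ[P] 𝕂) :=
  { (inferInstance : AddCommGroup (Ω →ₘ[P] 𝕂)), (inferInstance : CommMonoid (Ω →ₘ[P] 𝕂)) with
    left_distrib := by
      intro a b c
      apply AEEqFun.ext
      filter_upwards [AEEqFun.coeFn_mul a (b + c), AEEqFun.coeFn_add b c,
        AEEqFun.coeFn_add (a * b) (a * c), AEEqFun.coeFn_mul a b, AEEqFun.coeFn_mul a c]
        with ω h1 h2 h3 h4 h5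
      rw [h1, h3, Pi.mul_apply, Pi.add_apply, h2, h4, h5, Pi.mul_apply, Pi.mul_apply,
        Pi.add_apply, mul_add]
    right_distrib := by
      intro a b c
      apply AEEqFun.ext
      filter_upwards [AEEqFun.coeFn_mul (a + b) c, AEEqFun.coeFn_add a b,
        AEEqFun.coeFn_add (a * c) (b * c), AEEqFun.coeFn_mul a c, AEEqFun.coeFn_mul b c]
        with ω h1 h2 h3 h4 h5
      rw [h1, h3, Pi.mul_apply, Pi.add_apply, h2, h4, h5, Pi.mul_apply, Pi.mul_apply,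
        Pi.add_apply, add_mul]
    zero_mul := by
      intro a
      apply AEEqFun.ext
      filter_upwards [AEEqFun.coeFn_mul (0 : Ω →ₘ[P] 𝕂) a,
        AEEqFun.coeFn_zero (α := Ω) (β := 𝕂) (μ := P)] with ω h1 h2
      rw [h1, Pi.mul_apply, h2, Pi.zero_apply, zero_mul]
    mul_zero := by
      intro a
      apply AEEqFun.ext
      filter_upwards [AEEqFun.coeFn_mul a (0 : Ω →ₘ[P] 𝕂),
        AEEqFun.coeFn_zero (α := Ω) (β := 𝕂) (μ := P)] with ω h1 h2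
      rw [h1, Pi.mul_apply, h2, Pi.zero_apply, mul_zero] }

variable {E E₁ E₂ : Type} [AddCommGroup E] [Module (Ω →ₘ[P] 𝕂) E]
  [AddCommGroup E₁] [Module (Ω →ₘ[P] 𝕂) E₁] [AddCommGroup E₂] [Module (Ω →ₘ[P] 𝕂) E₂]

/-- The modulus `|ξ|` of `ξ ∈ L^0(F, 𝕂)`. -/
noncomputable def modulus (ξ : Ω →ₘ[P] 𝕂) : Ω →ₘ[P] ℝ := AEEqFun.comp norm continuous_norm ξ

variable (𝕂) in
/-- `E` with `N = ‖·‖` is an RN module over `𝕂` with base `(Ω, F, P)`. -/
def IsRNModule (N : E → (Ω →ₘ[P] ℝ)) : Prop :=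
  (∀ x, 0 ≤ N x) ∧ (∀ (ξ : Ω →ₘ[P] 𝕂) (x : E), N (ξ • x) = modulus ξ * N x) ∧
    (∀ x y, N (x + y) ≤ N x + N y) ∧ ∀ x, N x = 0 → x = 0

/-- A countable measurable partition `(a_k)` of `Ω`. -/
structure Part (Ω : Type) [MeasurableSpace Ω] where
  /-- the parts -/
  a : ℕ → Set Ω
  meas : ∀ k, MeasurableSet (a k)
  disj : ∀ k l, k ≠ l → a k ∩ a l = ∅
  cover : ∀ ω, ∃ k, ω ∈ a k

variable (𝕂 P) in
/-- The class `I_a ∈ L^0(F, 𝕂)` of the indicator function of `a`. -/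
noncomputable def ind (a : Set Ω) (ha : MeasurableSet a) : Ω →ₘ[P] 𝕂 :=
  AEEqFun.mk (a.indicator fun _ => (1 : 𝕂))
    ((stronglyMeasurable_const.indicator ha).aestronglyMeasurable)

variable (𝕂 P) in
/-- `y = ∑_k I_{a_k} x_k`, that is, `I_{a_k} y = I_{a_k} x_k` for all `k`. -/
def IsConcat (p : Part Ω) (x : ℕ → E) (y : E) : Prop :=
  ∀ k, ind 𝕂 P (p.a k) (p.meas k) • y = ind 𝕂 P (p.a k) (p.meas k) • x k

variable (𝕂 P) in
/-- The set `X` is sigma-stable. -/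
def IsSigmaStable (X : Set E) : Prop :=
  X.Nonempty ∧ ∀ (p : Part Ω) (x : ℕ → E), (∀ k, x k ∈ X) → ∃ y ∈ X, IsConcat 𝕂 P p x y

variable (𝕂 P) in
/-- `F : X → 2^Y ∖ {∅}` is a sigma-stable set-valued map. (Only the values of `F` on `X` matter.) -/
def IsSigmaStableMap (X : Set E₁) (Y : Set E₂) (F : E₁ → Set E₂) : Prop :=
  (∀ x ∈ X, (F x).Nonempty ∧ F x ⊆ Y) ∧
    ∀ (p : Part Ω) (x : ℕ → E₁) (x' : E₁), (∀ k, x k ∈ X) → x' ∈ X → IsConcat 𝕂 P p x x' →
      ∀ z : E₂, z ∈ F x' ↔ ∃ y : ℕ → E₂, (∀ k, y k ∈ F (x k)) ∧ IsConcat 𝕂 P p y z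

/-- The set `U` is open for the topology `T_{ε,λ}`. -/
def IsOpenEL (N : E → (Ω →ₘ[P] ℝ)) (U : Set E) : Prop :=
  ∀ x ∈ U, ∃ ε l : ℝ, 0 < ε ∧ 0 < l ∧ l < 1 ∧
    ∀ y, ENNReal.ofReal (1 - l) < P {ω | N (y - x) ω < ε} → y ∈ U

/-- `x_n → x` for the topology `T_{ε,λ}`. -/
def TendstoEL (N : E → (Ω →ₘ[P] ℝ)) (x : ℕ → E) (x₀ : E) : Prop :=
  ∀ ε l : ℝ, 0 < ε → 0 < l → l < 1 →
    ∀ᶠ n in atTop, ENNReal.ofReal (1 - l) < P {ω | N (x n - x₀) ω < ε}

/-- The set `U` is open for the topology `T_c`. -/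
def IsOpenC (N : E → (Ω →ₘ[P] ℝ)) (U : Set E) : Prop :=
  ∀ x ∈ U, ∃ ε : Ω →ₘ[P] ℝ, (∀ᵐ ω ∂P, 0 < ε ω) ∧ ∀ y, (∀ᵐ ω ∂P, N (y - x) ω < ε ω) → y ∈ U

/-- `F` is `T_c`-upper semicontinuous. -/
def IsUSCc (N₁ : E₁ → (Ω →ₘ[P] ℝ)) (N₂ : E₂ → (Ω →ₘ[P] ℝ)) (X : Set E₁)
    (F : E₁ → Set E₂) : Prop :=
  ∀ x₀ ∈ X, ∀ U : Set E₂, (∃ W, IsOpenC N₂ W ∧ F x₀ ⊆ W ∧ W ⊆ U) →
    ∃ V : Set E₁, (∃ W, IsOpenC N₁ W ∧ x₀ ∈ W ∧ W ⊆ V) ∧ ∀ x ∈ V ∩ X, F x ⊆ U

/-- The partition of `Ω` into the sets `(κ = l)`. -/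
def partOf (κ : Ω → ℕ) (hκ : Measurable κ) : Part Ω where
  a := fun l => {ω | κ ω = l}
  meas := fun l => hκ (measurableSet_singleton l)
  disj := by
    intro k l hkl
    ext ω
    simp only [mem_inter_iff, mem_ofPred_eq, mem_empty_iff_false, iff_false, not_and]
    intro h1 h2
    exact hkl (h1.symm.trans h2)
  cover := fun ω => ⟨κ ω, rfl⟩

variable (𝕂) in
/-- `F` is random sequentially upper semicontinuous: for each `x₀ ∈ X`, each sequence `(x_n)` in `X`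
with `x_n → x₀` for `T_{ε,λ}` and each `T_{ε,λ}`-neighbourhood `V` of `F x₀` there is a random
subsequence `y_k = x_{n_k} = ∑_l I_{(n_k = l)} x_l` with `F (y_k) ⊆ V` for `k ≥ k₀`. -/
def IsRandomSeqUSC (N₁ : E₁ → (Ω →ₘ[P] ℝ)) (N₂ : E₂ → (Ω →ₘ[P] ℝ)) (X : Set E₁)
    (F : E₁ → Set E₂) : Prop :=
  ∀ x₀ ∈ X, ∀ x : ℕ → E₁, (∀ n, x n ∈ X) → TendstoEL N₁ x x₀ →
    ∀ V : Set E₂, (∃ W, IsOpenEL N₂ W ∧ F x₀ ⊆ W ∧ W ⊆ V) →
      ∃ (n : ℕ → Ω → ℕ) (hn : ∀ k, Measurable (n k)) (y : ℕ → E₁) (k₀ : ℕ),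
        (∀ k, ∀ᵐ ω ∂P, n k ω < n (k + 1) ω) ∧
        (∀ k, y k ∈ X ∧ IsConcat 𝕂 P (partOf (n k) (hn k)) x (y k)) ∧
        ∀ k, k₀ ≤ k → F (y k) ⊆ V

end defs

/-- the probability measure on `ℕ` -/
noncomputable def P : Measure ℕ := Measure.sum fun n => (2⁻¹ : ℝ≥0∞) ^ (n + 1) • Measure.dirac n

lemma P_singleton (n : ℕ) : P {n} ≠ 0 := by
  unfold P
  rw [Measure.sum_apply _ (measurableSet_singleton n)]
  intro h
  rw [ENNReal.tsum_eq_zero] at h
  have := h n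
  simp at this

instance : IsProbabilityMeasure P := by
  refine ⟨?_⟩
  unfold P
  rw [Measure.sum_apply _ MeasurableSet.univ]
  simp only [Measure.smul_apply, measure_univ, smul_eq_mul, mul_one]
  rw [ENNReal.tsum_geometric_add_one, ENNReal.one_sub_inv_two, inv_inv,
    ENNReal.inv_mul_cancel (by norm_num) (by norm_num)]

lemma ae_iff_all {p : ℕ → Prop} : (∀ᵐ n ∂P, p n) ↔ ∀ n, p n := by
  constructor
  · intro h n
    by_contra hn
    have h1 : P {n} ≤ P {m | ¬ p m} := measure_mono (by rintro _ rfl; exact hn)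
    rw [ae_iff] at h
    rw [h] at h1
    exact P_singleton n (le_antisymm h1 bot_le)
  · intro h
    exact Eventually.of_forall h

variable {𝕂 : Type} [RCLike 𝕂]

lemma eq_of_all {β : Type} [TopologicalSpace β] {f g : ℕ →ₘ[P] β} (h : ∀ n, f n = g n) : f = g :=
  AEEqFun.ext (ae_iff_all.2 h)

lemma all_of_ae {β : Type} {f g : ℕ → β} (h : f =ᵐ[P] g) (n : ℕ) : f n = g n :=
  ae_iff_all.1 h n

/-- class of a function -/
noncomputable def cl {β : Type} [TopologicalSpace β] [TopologicalSpace.PseudoMetrizableSpace β]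
    [SecondCountableTopology β] (f : ℕ → β) : ℕ →ₘ[P] β :=
  AEEqFun.mk f (StronglyMeasurable.of_discrete).aestronglyMeasurable

lemma cl_apply {β : Type} [TopologicalSpace β] [TopologicalSpace.PseudoMetrizableSpace β]
    [SecondCountableTopology β] (f : ℕ → β) (n : ℕ) : cl f n = f n :=
  all_of_ae (AEEqFun.coeFn_mk _ _) n

lemma add_app (f g : ℕ →ₘ[P] 𝕂) (n : ℕ) : (f + g) n = f n + g n :=
  all_of_ae (AEEqFun.coeFn_add f g) n

lemma sub_app (f g : ℕ →ₘ[P] 𝕂) (n : ℕ) : (f - g) n = f n - g n :=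
  all_of_ae (AEEqFun.coeFn_sub f g) n

lemma mul_app (f g : ℕ →ₘ[P] 𝕂) (n : ℕ) : (f * g) n = f n * g n :=
  all_of_ae (AEEqFun.coeFn_mul f g) n

lemma smul_app (f g : ℕ →ₘ[P] 𝕂) (n : ℕ) : (f • g) n = f n * g n :=
  mul_app f g n

lemma modulus_app (f : ℕ →ₘ[P] 𝕂) (n : ℕ) : modulus f n = ‖f n‖ :=
  all_of_ae (AEEqFun.coeFn_comp norm continuous_norm f) n

open Classical in
lemma ind_app (a : Set ℕ) (ha : MeasurableSet a) (n : ℕ) :
    ind 𝕂 P a ha n = if n ∈ a then 1 else 0 := by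
  have h1 : ind 𝕂 P a ha n = a.indicator (fun _ => (1 : 𝕂)) n :=
    all_of_ae (AEEqFun.coeFn_mk _ _) n
  rw [h1, Set.indicator_apply]

lemma isConcat_iff (p : Part ℕ) (x : ℕ → (ℕ →ₘ[P] 𝕂)) (y : ℕ →ₘ[P] 𝕂) :
    IsConcat 𝕂 P p x y ↔ ∀ k, ∀ n ∈ p.a k, y n = x k n := by
  classical
  constructor
  · intro h k n hn
    have h1 : (ind 𝕂 P (p.a k) (p.meas k) • y) n = (ind 𝕂 P (p.a k) (p.meas k) • x k) n := by
      rw [h k]
    rw [smul_app, smul_app, ind_app, if_pos hn, one_mul, one_mul] at h1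
    exact h1
  · intro h k
    apply eq_of_all
    intro n
    rw [smul_app, smul_app, ind_app]
    by_cases hn : n ∈ p.a k
    · rw [if_pos hn, one_mul, one_mul, h k n hn]
    · rw [if_neg hn, zero_mul, zero_mul]

lemma le_iff {f g : ℕ →ₘ[P] ℝ} : f ≤ g ↔ ∀ n, f n ≤ g n := by
  rw [← AEEqFun.coeFn_le]
  exact ae_iff_all

lemma isRNModule : IsRNModule 𝕂 (modulus : (ℕ →ₘ[P] 𝕂) → (ℕ →ₘ[P] ℝ)) := by
  refine ⟨fun x => ?_, fun ξ x => ?_, fun x y => ?_, fun x hx => ?_⟩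
  · rw [le_iff]
    intro n
    have : (0 : ℕ →ₘ[P] ℝ) n = 0 := all_of_ae AEEqFun.coeFn_zero n
    rw [this, modulus_app]
    exact norm_nonneg _
  · apply eq_of_all
    intro n
    have h1 : (modulus ξ * modulus x) n = modulus ξ n * modulus x n := mul_app (𝕂 := ℝ) _ _ n
    rw [h1, modulus_app, smul_app, norm_mul, modulus_app, modulus_app]
  · rw [le_iff]
    intro n
    have h1 : (modulus x + modulus y) n = modulus x n + modulus y n := add_app (𝕂 := ℝ) _ _ n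
    rw [h1, modulus_app, add_app, modulus_app, modulus_app]
    exact norm_add_le _ _
  · apply eq_of_all
    intro n
    have h1 : modulus x n = (0 : ℕ →ₘ[P] ℝ) n := by rw [hx]
    have h2 : (0 : ℕ →ₘ[P] ℝ) n = 0 := all_of_ae AEEqFun.coeFn_zero n
    have h3 : (0 : ℕ →ₘ[P] 𝕂) n = 0 := all_of_ae AEEqFun.coeFn_zero n
    rw [modulus_app, h2, norm_eq_zero] at h1
    rw [h1, h3]

lemma part_unique (p : Part ℕ) {n k l : ℕ} (hk : n ∈ p.a k) (hl : n ∈ p.a l) : k = l := by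
  by_contra h
  have : n ∈ p.a k ∩ p.a l := ⟨hk, hl⟩
  rw [p.disj k l h] at this
  exact this

lemma isSigmaStable_univ : IsSigmaStable 𝕂 P (univ : Set (ℕ →ₘ[P] 𝕂)) := by
  refine ⟨univ_nonempty, fun p x _ => ?_⟩
  choose κ hκ using p.cover
  refine ⟨cl fun n => x (κ n) n, mem_univ _, ?_⟩
  rw [isConcat_iff]
  intro k n hn
  rw [cl_apply, part_unique p (hκ n) hn]

/-- zero-one sequences -/
def bit (B : ℕ → Bool) (n : ℕ) : 𝕂 := if B n then 1 else 0

/-- the set-valued map -/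
def F (x : ℕ →ₘ[P] 𝕂) : Set (ℕ →ₘ[P] 𝕂) := {z | ∃ B : ℕ → Bool, ∀ n, z n = x n + bit B n}

lemma isSigmaStableMap :
    IsSigmaStableMap 𝕂 P (univ : Set (ℕ →ₘ[P] 𝕂)) (univ : Set (ℕ →ₘ[P] 𝕂)) F := by
  refine ⟨fun x _ => ⟨⟨x, fun _ => false, fun n => ?_⟩, subset_univ _⟩, ?_⟩
  · unfold bit
    rw [if_neg (by simp), add_zero]
  · intro p x x' _ _ hx' z
    rw [isConcat_iff] at hx'
    choose κ hκ using p.cover
    constructor
    · rintro ⟨B, hB⟩
      refine ⟨fun k => cl fun n => x k n + bit B n, fun k => ⟨B, fun n => cl_apply _ _⟩, ?_⟩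
      rw [isConcat_iff]
      intro k n hn
      rw [cl_apply, hB, hx' k n hn]
    · rintro ⟨y, hy, hz⟩
      rw [isConcat_iff] at hz
      choose B hB using hy
      refine ⟨fun n => B (κ n) n, fun n => ?_⟩
      rw [hz _ n (hκ n), hB, hx' _ n (hκ n)]
      rfl

/-- sets of large probability contain given points -/
lemma exists_l (N : ℕ) : ∃ l : ℝ, 0 < l ∧ l < 1 ∧
    ∀ S : Set ℕ, ENNReal.ofReal (1 - l) < P S → ∀ m < N, m ∈ S := by
  have h1 : ∀ N : ℕ, ∃ l : ℝ, 0 < l ∧ l < 1 ∧ ∀ m < N, ENNReal.ofReal l ≤ P {m} := by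
    intro N
    induction N with
    | zero => exact ⟨1 / 2, by norm_num, by norm_num, fun m hm => absurd hm (Nat.not_lt_zero m)⟩
    | succ N ih =>
      obtain ⟨l, hl0, hl1, hl⟩ := ih
      have hfin : P {N} ≠ ∞ := measure_ne_top _ _
      have hpos : 0 < (P {N}).toReal := ENNReal.toReal_pos (P_singleton N) hfin
      refine ⟨min l (P {N}).toReal, lt_min hl0 hpos, min_lt_of_left_lt hl1, fun m hm => ?_⟩
      rcases Nat.lt_succ_iff_lt_or_eq.1 hm with h | rfl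
      · exact (ENNReal.ofReal_le_ofReal (min_le_left _ _)).trans (hl m h)
      · exact (ENNReal.ofReal_le_ofReal (min_le_right _ _)).trans
          (le_of_eq (ENNReal.ofReal_toReal hfin))
  obtain ⟨l, hl0, hl1, hl⟩ := h1 N
  refine ⟨l, hl0, hl1, fun S hS m hm => ?_⟩
  by_contra hmS
  have h2 : P S + P {m} ≤ 1 := by
    have h3 : Disjoint S {m} := by rwa [disjoint_singleton_right]
    rw [← measure_union h3 (measurableSet_singleton m)]
    exact prob_le_one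
  have h3 : ENNReal.ofReal (1 - l) + ENNReal.ofReal l < P S + P {m} :=
    ENNReal.add_lt_add_of_lt_of_le ENNReal.ofReal_ne_top hS (hl m hm)
  rw [← ENNReal.ofReal_add (by linarith) hl0.le, sub_add_cancel, ENNReal.ofReal_one] at h3
  exact absurd h2 (not_le.2 h3)

/-- sets which contain a long initial segment have large probability -/
lemma exists_N (l : ℝ) (hl : 0 < l) : ∃ N : ℕ, ∀ S : Set ℕ, (∀ m < N, m ∈ S) →
    ENNReal.ofReal (1 - l) < P S := by
  have h1 : Tendsto (fun N => P (Set.Iio N)) atTop (𝓝 (P (⋃ N : ℕ, Set.Iio N))) :=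
    tendsto_measure_iUnion_atTop (fun a b hab => Set.Iio_subset_Iio hab)
  have h2 : (⋃ N : ℕ, Set.Iio N) = univ := by
    rw [eq_univ_iff_forall]
    intro m
    exact mem_iUnion.2 ⟨m + 1, Nat.lt_succ_self m⟩
  rw [h2, measure_univ] at h1
  have h3 : ENNReal.ofReal (1 - l) < 1 := by
    rw [ENNReal.ofReal_lt_one]
    linarith
  obtain ⟨N, hN⟩ := (h1.eventually_const_lt h3).exists
  refine ⟨N, fun S hS => lt_of_lt_of_le hN (measure_mono fun m hm => hS m hm)⟩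

lemma isRandomSeqUSC :
    IsRandomSeqUSC 𝕂 (P := P) modulus modulus (univ : Set (ℕ →ₘ[P] 𝕂)) F := by
  classical
  intro x₀ _ x _ hx V hV
  obtain ⟨W, hW, hFW, hWV⟩ := hV
  -- neighbourhoods of the points of `F x₀`
  have h1 : ∀ B : ℕ → Bool, ∃ (N : ℕ) (ε : ℝ), 0 < ε ∧ ∀ z : ℕ →ₘ[P] 𝕂,
      (∀ m < N, ‖z m - (x₀ m + bit B m)‖ < ε) → z ∈ W := by
    intro B
    obtain ⟨ε, l, hε, hl0, -, hl⟩ := hW (cl fun n => x₀ n + bit B n)
      (hFW ⟨B, fun n => cl_apply _ _⟩)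
    obtain ⟨N, hN⟩ := exists_N l hl0
    refine ⟨N, ε, hε, fun z hz => hl z (hN _ fun m hm => ?_)⟩
    show modulus (z - cl fun n => x₀ n + bit B n) m < ε
    rw [modulus_app, sub_app, cl_apply]
    exact hz m hm
  choose N ε hε hNε using h1
  have h2 : ∀ B : ℕ → Bool, {B' : ℕ → Bool | ∀ m < N B, B' m = B m} ∈ 𝓝 B := by
    intro B
    have h3 : {B' : ℕ → Bool | ∀ m < N B, B' m = B m} =
        ⋂ m ∈ Finset.range (N B), {B' : ℕ → Bool | B' m = B m} := by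
      ext B'
      simp
    rw [h3, Filter.biInter_finset_mem]
    intro m _
    have h4 : IsOpen ((fun B' : ℕ → Bool => B' m) ⁻¹' {B m}) :=
      (isOpen_discrete {B m}).preimage (continuous_apply m)
    exact h4.mem_nhds rfl
  obtain ⟨T, hT⟩ := isCompact_univ.elim_nhds_subcover _ (fun B _ => h2 B)
  obtain ⟨-, hT⟩ := hT
  have hTne : T.Nonempty := by
    by_contra hne
    rw [Finset.not_nonempty_iff_eq_empty] at hne
    have := hT (mem_univ fun _ => false)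
    rw [hne] at this
    simp at this
  set Nm := T.sup N with hNm
  set εm := T.inf' hTne ε with hεm
  have hεm0 : 0 < εm := by
    rw [hεm, Finset.lt_inf'_iff]
    exact fun B _ => hε B
  obtain ⟨l, hl0, hl1, hl⟩ := exists_l Nm
  obtain ⟨k₀, hk₀⟩ := eventually_atTop.1 (hx εm l hεm0 hl0 hl1)
  refine ⟨fun k _ => k, fun k => measurable_const, x, k₀, fun k => ?_, fun k => ⟨mem_univ _, ?_⟩,
    fun k hk => ?_⟩
  · exact Eventually.of_forall fun ω => Nat.lt_succ_self k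
  · rw [isConcat_iff]
    intro l n hn
    have : k = l := hn
    rw [this]
  · rintro z ⟨B, hB⟩
    apply hWV
    obtain ⟨B', hB'T, hB'⟩ := mem_iUnion₂.1 (hT (mem_univ B))
    refine hNε B' z fun m hm => ?_
    have h3 : m < Nm := lt_of_lt_of_le hm (Finset.le_sup hB'T)
    have h4 : modulus (x k - x₀) m < εm := hl _ (hk₀ k hk) m h3
    have h5 : B m = B' m := hB' m hm
    have h6 : z m - (x₀ m + bit B' m) = x k m - x₀ m := by
      rw [hB]
      unfold bit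
      rw [h5]
      ring
    rw [h6]
    rw [modulus_app, sub_app] at h4
    exact lt_of_lt_of_le h4 (Finset.inf'_le _ hB'T)

/-- the radii -/
noncomputable def rad (B : ℕ → Bool) : ℝ := (1 / 2) ^ (sInf {n | B n = true} + 2)

lemma rad_le (B : ℕ → Bool) : rad B ≤ 1 / 4 := by
  unfold rad
  rw [pow_add]
  have : (1 / 2 : ℝ) ^ sInf {n | B n = true} ≤ 1 := pow_le_one₀ (by norm_num) (by norm_num)
  nlinarith

lemma rad_pos (B : ℕ → Bool) : 0 < rad B := by unfold rad; positivity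

lemma not_isUSCc : ¬ IsUSCc (P := P) modulus modulus (univ : Set (ℕ →ₘ[P] 𝕂)) F := by
  classical
  intro h
  set U : Set (ℕ →ₘ[P] 𝕂) := {z | ∃ B : ℕ → Bool, ∀ n, ‖z n - bit B n‖ < rad B} with hU
  have hUopen : IsOpenC modulus U := by
    rintro z ⟨B, hB⟩
    refine ⟨cl fun n => rad B - ‖z n - bit B n‖, ae_iff_all.2 fun n => ?_, fun y hy => ⟨B, fun n => ?_⟩⟩
    · rw [cl_apply]
      linarith [hB n]
    · have h1 := ae_iff_all.1 hy n
      rw [modulus_app, sub_app, cl_apply] at h1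
      have h2 := norm_sub_le_norm_sub_add_norm_sub (y n) (z n) (bit B n)
      linarith
  have h0 : F (0 : ℕ →ₘ[P] 𝕂) ⊆ U := by
    rintro z ⟨B, hB⟩
    refine ⟨B, fun n => ?_⟩
    have : (0 : ℕ →ₘ[P] 𝕂) n = 0 := all_of_ae AEEqFun.coeFn_zero n
    rw [hB, this, zero_add, sub_self, norm_zero]
    exact rad_pos B
  obtain ⟨V, ⟨W, hW, h0W, hWV⟩, hV⟩ := h 0 (mem_univ _) U ⟨U, hUopen, h0, Subset.rfl⟩
  obtain ⟨δ, hδ, hδW⟩ := hW 0 h0W
  rw [ae_iff_all] at hδ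
  set x : ℕ →ₘ[P] 𝕂 := cl fun n => ((min (δ n / 2) (1 / 8) : ℝ) : 𝕂) with hx
  have hxn : ∀ n, ‖x n‖ = min (δ n / 2) (1 / 8) := by
    intro n
    rw [hx, cl_apply, RCLike.norm_ofReal, abs_of_nonneg]
    exact le_min (half_pos (hδ n)).le (by norm_num)
  have hxV : x ∈ V := by
    apply hWV
    refine hδW x (ae_iff_all.2 fun n => ?_)
    rw [sub_zero, modulus_app, hxn]
    exact lt_of_le_of_lt (min_le_left _ _) (half_lt_self (hδ n))
  have h1 := hV x ⟨hxV, mem_univ _⟩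
  -- choose a large index
  have hx0 : 0 < ‖x 0‖ := by
    rw [hxn]
    exact lt_min (half_pos (hδ 0)) (by norm_num)
  obtain ⟨N, hN⟩ := exists_pow_lt_of_lt_one hx0 (show (1 / 2 : ℝ) < 1 by norm_num)
  set B : ℕ → Bool := fun n => decide (n = N + 1) with hB
  have h2 : (cl fun n => x n + bit B n) ∈ U := h1 ⟨B, fun n => cl_apply _ _⟩
  obtain ⟨B', hB'⟩ := h2
  have h3 : B' = B := by
    funext n
    by_contra hne
    have h4 := hB' n
    rw [cl_apply] at h4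
    have h5 : (1 : ℝ) ≤ ‖(bit B n : 𝕂) - bit B' n‖ := by
      unfold bit
      cases hb : B n <;> cases hb' : B' n
      · exact absurd (hb'.trans hb.symm) hne
      · simp
      · simp
      · exact absurd (hb'.trans hb.symm) hne
    have h6 : (bit B n : 𝕂) - bit B' n = (x n + bit B n - bit B' n) - x n := by ring
    rw [h6] at h5
    have h7 := norm_sub_le (x n + bit B n - bit B' n) (x n)
    have h8 : ‖x n‖ ≤ 1 / 8 := by rw [hxn]; exact min_le_right _ _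
    have h9 := rad_le B'
    linarith
  have h4 := hB' 0
  rw [cl_apply, h3, add_sub_cancel_right] at h4
  have h5 : sInf {n | B n = true} = N + 1 := by
    have : {n | B n = true} = {N + 1} := by
      ext n
      simp [hB]
    rw [this, csInf_singleton]
  have h6 : rad B ≤ (1 / 2) ^ N := by
    unfold rad
    rw [h5]
    exact pow_le_pow_of_le_one (by norm_num) (by norm_num) (by omega)
  linarith

/-- There are RN modules `E₁`, `E₂` over `𝕂` on a common base, sigma-stable sets `X ⊆ E₁`, `Y ⊆ E₂` and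
a sigma-stable map `F : X → 2^Y ∖ {∅}` which is random sequentially upper semicontinuous but not
`T_c`-upper semicontinuous. -/
theorem result (𝕂 : Type) [RCLike 𝕂] : ∃ (Ω : Type) (_ : MeasurableSpace Ω) (P : Measure Ω)
    (E₁ E₂ : Type) (_ : AddCommGroup E₁) (_ : Module (Ω →ₘ[P] 𝕂) E₁) (_ : AddCommGroup E₂)
    (_ : Module (Ω →ₘ[P] 𝕂) E₂) (N₁ : E₁ → (Ω →ₘ[P] ℝ)) (N₂ : E₂ → (Ω →ₘ[P] ℝ))
    (X : Set E₁) (Y : Set E₂) (F : E₁ → Set E₂), IsProbabilityMeasure P ∧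
      IsRNModule 𝕂 N₁ ∧ IsRNModule 𝕂 N₂ ∧ IsSigmaStable 𝕂 P X ∧ IsSigmaStable 𝕂 P Y ∧
      IsSigmaStableMap 𝕂 P X Y F ∧ IsRandomSeqUSC 𝕂 N₁ N₂ X F ∧ ¬ IsUSCc N₁ N₂ X F :=
  ⟨ℕ, inferInstance, P, ℕ →ₘ[P] 𝕂, ℕ →ₘ[P] 𝕂, inferInstance, inferInstance, inferInstance,
    inferInstance, modulus, modulus, univ, univ, F, inferInstance, isRNModule, isRNModule,
    isSigmaStable_univ, isSigmaStable_univ, isSigmaStableMap, isRandomSeqUSC, not_isUSCc⟩

end Pool.Agent.Results.MP_4f3acd_an.NotEquivalent
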